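import Pool.Agent.W23.PL.Defs
import Pool.Agent.H442R2.BX.Fi
import Pool.Agent.W583.DC.FIF

set_option autoImplicit false

/-!
PL project, task FIX (helper826): block decomposition.
-/

namespace Pool.Agent.W826.PL

open Finset
open Pool.Agent.H442R2
open Pool.Agent.H442R2.KF
open Pool.Agent.W23.DC
open Pool.Agent.W23.PL

/-- the Bessel inequality for all families of moduli with the property `P` -/
def QQ (P : ℝ → ℕ → ℕ → Prop) : Prop := ∀ A₀ : ℝ, 0 < A₀ → ∃ εs : ℝ, 0 < εs ∧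
    ∀ ε₁ : ℝ, 0 < ε₁ → ε₁ ≤ εs → ∃ C : ℝ, 0 < C ∧ ∀ B : ℕ, 40 ≤ B → ∃ N₀ : ℕ, ∀ N : ℕ, N₀ ≤ N →
    ∀ f : ℕ → ℝ, (∀ p, |f p| ≤ 1) → ∀ 𝒜 : Finset ℤ,
    (∀ a ∈ 𝒜, a ≠ 0 ∧ |(a : ℝ)| ≤ N - (N : ℝ) ^ (1 / 2 : ℝ)) →
    ∀ T : ℤ → Finset ℕ, (∀ a ∈ 𝒜, ∀ d ∈ T a, P ε₁ N d) →
    ∑ a ∈ 𝒜, (∑ d ∈ T a, |BX.Df (fun p => f p * xx (P1 N B ε₁) (p - a)) N a d|) ^ 2 ≤
      (N / Real.log N) ^ 2 * (C * VV (P1 N B ε₁) +
        Real.exp (-(A₀ / ε₁)) * VV (P1 N B ε₁) ^ 2 * 𝒜.card)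

theorem QQ_mono (P P' : ℝ → ℕ → ℕ → Prop) (h : ∀ ε₁ N d, 2 ≤ N → P' ε₁ N d → P ε₁ N d)
    (hP : QQ P) : QQ P' := by
  intro A₀ hA₀
  obtain ⟨εs, hεs, H⟩ := hP A₀ hA₀
  refine ⟨εs, hεs, fun ε₁ h0 h1 => ?_⟩
  obtain ⟨C, hC, H⟩ := H ε₁ h0 h1
  refine ⟨C, hC, fun B hB => ?_⟩
  obtain ⟨N₀, H⟩ := H B hB
  refine ⟨max N₀ 2, fun N hN f hf 𝒜 hA T hT => ?_⟩
  exact H N ((le_max_left _ _).trans hN) f hf 𝒜 hA T
    (fun a ha d hd => h ε₁ N d ((le_max_right _ _).trans hN) (hT a ha d hd))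

theorem VV_nonneg {N B : ℕ} {ε₁ : ℝ} : 0 ≤ VV (P1 N B ε₁) := by
  classical
  unfold VV
  refine prod_nonneg fun p hp => ?_
  have hp1 : p.Prime := by
    unfold P1 at hp
    rw [mem_filter] at hp
    exact hp.2.1
  have h2 : (1 : ℝ) ≤ p := by exact_mod_cast hp1.one_lt.le
  have h3 : 1 / (p : ℝ) ≤ 1 := by
    rw [div_le_one (by linarith)]
    exact h2
  linarith

/-- `k e^(-(A+1)/ε) ≤ e^(-A/ε)` for `ε ≤ 1/(k+1)` -/
theorem exp_shift {A ε k : ℝ} (hk : 0 ≤ k) (hε : 0 < ε) (h : ε ≤ 1 / (k + 1)) :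
    k * Real.exp (-((A + 1) / ε)) ≤ Real.exp (-(A / ε)) := by
  have h1 : Real.exp (-((A + 1) / ε)) = Real.exp (-(A / ε)) * Real.exp (-(1 / ε)) := by
    rw [← Real.exp_add]
    congr 1
    ring
  have h2 : k + 1 ≤ 1 / ε := by
    rw [le_div_iff₀ hε]
    rw [le_div_iff₀ (by linarith)] at h
    linarith
  have h3 : k ≤ Real.exp (1 / ε) := by
    have := Real.add_one_le_exp (1 / ε)
    linarith
  have h4 : k * Real.exp (-(1 / ε)) ≤ 1 := by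
    rw [Real.exp_neg]
    rw [← div_eq_mul_inv, div_le_one (Real.exp_pos _)]
    exact h3
  rw [h1]
  have h5 := Real.exp_pos (-(A / ε))
  calc k * (Real.exp (-(A / ε)) * Real.exp (-(1 / ε)))
      = Real.exp (-(A / ε)) * (k * Real.exp (-(1 / ε))) := by ring
    _ ≤ Real.exp (-(A / ε)) * 1 := by gcongr
    _ = _ := mul_one _

/-- numbers only -/
theorem combine {Q V k A ε C S c : ℝ} (hQ : 0 ≤ Q) (hk : 0 ≤ k) (hc : 0 ≤ c)
    (hε : 0 < ε) (h : ε ≤ 1 / (k + 1))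
    (hS : S ≤ k * (Q * (C * V + Real.exp (-((A + 1) / ε)) * V ^ 2 * c))) :
    S ≤ Q * ((k * C) * V + Real.exp (-(A / ε)) * V ^ 2 * c) := by
  have h1 := exp_shift (A := A) hk hε h
  have h2 : 0 ≤ V ^ 2 * c := by positivity
  calc S ≤ k * (Q * (C * V + Real.exp (-((A + 1) / ε)) * V ^ 2 * c)) := hS
    _ = Q * ((k * C) * V + (k * Real.exp (-((A + 1) / ε))) * (V ^ 2 * c)) := by ring
    _ ≤ Q * ((k * C) * V + Real.exp (-(A / ε)) * (V ^ 2 * c)) := by gcongr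
    _ = _ := by ring

theorem QQ_or (P P' : ℝ → ℕ → ℕ → Prop) (hP : QQ P) (hP' : QQ P') :
    QQ (fun ε₁ N d => P ε₁ N d ∨ P' ε₁ N d) := by
  classical
  intro A₀ hA₀
  obtain ⟨εs, hεs, H⟩ := hP (A₀ + 1) (by linarith)
  obtain ⟨εs', hεs', H'⟩ := hP' (A₀ + 1) (by linarith)
  refine ⟨min (min εs εs') (1 / (4 + 1)), lt_min (lt_min hεs hεs') (by norm_num), ?_⟩
  intro ε₁ h0 h1
  have h1a : ε₁ ≤ εs := h1.trans ((min_le_left _ _).trans (min_le_left _ _))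
  have h1b : ε₁ ≤ εs' := h1.trans ((min_le_left _ _).trans (min_le_right _ _))
  have h1c : ε₁ ≤ 1 / (4 + 1) := h1.trans (min_le_right _ _)
  obtain ⟨C, hC, H⟩ := H ε₁ h0 h1a
  obtain ⟨C', hC', H'⟩ := H' ε₁ h0 h1b
  refine ⟨4 * (C + C'), by positivity, fun B hB => ?_⟩
  obtain ⟨N₀, H⟩ := H B hB
  obtain ⟨N₀', H'⟩ := H' B hB
  refine ⟨max N₀ N₀', fun N hN f hf 𝒜 hA T hT => ?_⟩
  have g1 := H N ((le_max_left _ _).trans hN) f hf 𝒜 hA (fun a => (T a).filter (fun d => P ε₁ N d))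
    (by
      intro a _ d hd
      exact (Finset.mem_filter.1 hd).2)
  have g2 := H' N ((le_max_right _ _).trans hN) f hf 𝒜 hA
    (fun a => (T a).filter (fun d => ¬ P ε₁ N d)) (by
      intro a ha d hd
      rcases hT a ha d (Finset.mem_filter.1 hd).1 with h | h
      · exact absurd h (Finset.mem_filter.1 hd).2
      · exact h)
  set V := VV (P1 N B ε₁) with hV
  have hV0 : 0 ≤ V := VV_nonneg
  have hQ0 : 0 ≤ ((N : ℝ) / Real.log N) ^ 2 := sq_nonneg _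
  set Q := ((N : ℝ) / Real.log N) ^ 2 with hQ
  have hsplit : ∀ a ∈ 𝒜, (∑ d ∈ T a, |BX.Df (fun p => f p * xx (P1 N B ε₁) (p - a)) N a d|) ^ 2 ≤
      2 * (∑ d ∈ (T a).filter (fun d => P ε₁ N d),
        |BX.Df (fun p => f p * xx (P1 N B ε₁) (p - a)) N a d|) ^ 2 +
      2 * (∑ d ∈ (T a).filter (fun d => ¬ P ε₁ N d),
        |BX.Df (fun p => f p * xx (P1 N B ε₁) (p - a)) N a d|) ^ 2 := by
    intro a _
    rw [← Finset.sum_filter_add_sum_filter_not (T a) (fun d => P ε₁ N d)]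
    nlinarith [sq_nonneg (∑ d ∈ (T a).filter (fun d => P ε₁ N d),
      |BX.Df (fun p => f p * xx (P1 N B ε₁) (p - a)) N a d| -
      ∑ d ∈ (T a).filter (fun d => ¬ P ε₁ N d),
        |BX.Df (fun p => f p * xx (P1 N B ε₁) (p - a)) N a d|)]
  refine (combine (k := 4) (C := C + C') hQ0 (by norm_num) (Nat.cast_nonneg 𝒜.card) h0 h1c ?_)
  have hE : 0 ≤ Real.exp (-((A₀ + 1) / ε₁)) * V ^ 2 * 𝒜.card := by positivity
  calc ∑ a ∈ 𝒜, (∑ d ∈ T a, |BX.Df (fun p => f p * xx (P1 N B ε₁) (p - a)) N a d|) ^ 2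
      ≤ ∑ a ∈ 𝒜, (2 * (∑ d ∈ (T a).filter (fun d => P ε₁ N d),
        |BX.Df (fun p => f p * xx (P1 N B ε₁) (p - a)) N a d|) ^ 2 +
        2 * (∑ d ∈ (T a).filter (fun d => ¬ P ε₁ N d),
          |BX.Df (fun p => f p * xx (P1 N B ε₁) (p - a)) N a d|) ^ 2) :=
        Finset.sum_le_sum hsplit
    _ = 2 * ∑ a ∈ 𝒜, (∑ d ∈ (T a).filter (fun d => P ε₁ N d),
          |BX.Df (fun p => f p * xx (P1 N B ε₁) (p - a)) N a d|) ^ 2 +
        2 * ∑ a ∈ 𝒜, (∑ d ∈ (T a).filter (fun d => ¬ P ε₁ N d),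
          |BX.Df (fun p => f p * xx (P1 N B ε₁) (p - a)) N a d|) ^ 2 := by
        rw [Finset.sum_add_distrib, Finset.mul_sum, Finset.mul_sum]
    _ ≤ 2 * (Q * (C * V + Real.exp (-((A₀ + 1) / ε₁)) * V ^ 2 * 𝒜.card)) +
        2 * (Q * (C' * V + Real.exp (-((A₀ + 1) / ε₁)) * V ^ 2 * 𝒜.card)) := by
        linarith
    _ = Q * (2 * (C + C') * V + 4 * (Real.exp (-((A₀ + 1) / ε₁)) * V ^ 2 * 𝒜.card)) := by ring
    _ ≤ Q * (4 * (C + C') * V + 4 * (Real.exp (-((A₀ + 1) / ε₁)) * V ^ 2 * 𝒜.card)) := by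
        gcongr
        norm_num
    _ = _ := by ring

open BX.TaskFI in
/-- one window, from one coarse block -/
theorem QQ_fac (hBXB : St_BXB) (θ δ : ℝ) (hθ1 : 0 < θ) (hθ2 : θ < 5 / 9) (hδ : 0 < δ) :
    QQ (fun ε₁ N d => 1 < d ∧ (d : ℝ) ≤ (N : ℝ) ^ θ ∧
      (∀ p : ℕ, p.Prime → p ∣ d → ε₁ ≤ tt N p) ∧ (θ ≤ 51 / 100 ∨ FX.FacD N θ δ d)) := by
  classical
  intro A₀ hA₀
  obtain ⟨ε₀, εs, hε₀, hεs, hbk⟩ := hBXB θ δ (A₀ + 1) hθ1 hθ2 hδ (by linarith)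
  obtain ⟨e1, he1def⟩ : ∃ e1 : ℝ, e1 = ε₀ / 2 := ⟨_, rfl⟩
  have he1 : 0 < e1 := by rw [he1def]; linarith
  obtain ⟨I, hIdef⟩ : ∃ I : ℕ, I = ⌈1 / e1⌉₊ := ⟨_, rfl⟩
  have hI1 : 1 ≤ (I : ℝ) * e1 := by
    have h : 1 / e1 ≤ (I : ℝ) := by rw [hIdef]; exact Nat.le_ceil _
    rwa [div_le_iff₀ he1] at h
  obtain ⟨N1, hN1def⟩ : ∃ N1 : ℝ, N1 = (2 : ℝ) ^ (1 / e1) := ⟨_, rfl⟩
  have hN11 : 1 ≤ N1 := by
    rw [hN1def]; exact Real.one_le_rpow (by norm_num) (by positivity)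
  have hN10 : 0 < N1 := by linarith
  refine ⟨min εs (1 / ((I : ℝ) ^ 2 + 1)), lt_min hεs (by positivity), ?_⟩
  intro ε₁ h0 h1
  have h1a : ε₁ ≤ εs := h1.trans (min_le_left _ _)
  have h1c : ε₁ ≤ 1 / ((I : ℝ) ^ 2 + 1) := h1.trans (min_le_right _ _)
  obtain ⟨C, hC, hbk⟩ := hbk ε₁ h0 h1a
  have hIpos : (0 : ℝ) < I := by
    by_contra hcon
    have h2 : (I : ℝ) = 0 := le_antisymm (not_lt.1 hcon) (Nat.cast_nonneg _)
    rw [h2, zero_mul] at hI1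
    linarith
  refine ⟨(I : ℝ) ^ 2 * C, by positivity, fun B hB => ?_⟩
  obtain ⟨N₀, hbk⟩ := hbk B hB
  refine ⟨max N₀ (⌈N1⌉₊ + 2), fun N hN f hf 𝒜 hA T hT => ?_⟩
  have hNa : N₀ ≤ N := (le_max_left _ _).trans hN
  have hNb : ⌈N1⌉₊ + 2 ≤ N := (le_max_right _ _).trans hN
  have hlarge : N1 ≤ (N : ℝ) := by
    calc N1 ≤ (⌈N1⌉₊ : ℝ) := Nat.le_ceil _
      _ ≤ N := by exact_mod_cast (by omega : ⌈N1⌉₊ ≤ N)
  have hN1 : (1 : ℝ) ≤ N := by exact_mod_cast (by omega : 1 ≤ N)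
  have hN0 : (0 : ℝ) < N := by linarith
  have hTle : ∀ a ∈ 𝒜, ∀ d ∈ T a, (d : ℝ) ≤ (N : ℝ) ^ θ := fun a ha d hd => (hT a ha d hd).2.1
  have hN2' : 2 ≤ (N : ℝ) ^ e1 := by
    calc (2 : ℝ) = N1 ^ e1 := by
          rw [hN1def, ← Real.rpow_mul (by norm_num)]
          rw [one_div, inv_mul_cancel₀ he1.ne', Real.rpow_one]
      _ ≤ (N : ℝ) ^ e1 := Real.rpow_le_rpow hN10.le hlarge he1.le
  obtain ⟨D, hD⟩ : ∃ D : ℕ → ℕ, ∀ i, D i = ⌊(N : ℝ) ^ ((i : ℝ) * e1)⌋₊ := ⟨_, fun _ => rfl⟩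
  have hD1 : ∀ i, 1 ≤ D i := by
    intro i
    rw [hD]
    apply Nat.le_floor
    rw [Nat.cast_one]
    exact Real.one_le_rpow hN1 (by positivity)
  have hD0 : D 0 = 1 := by
    rw [hD]; simp
  have hDI : ∀ a ∈ 𝒜, ∀ d ∈ T a, d ≤ D I := by
    intro a ha d hd
    rw [hD]
    apply Nat.le_floor
    calc (d : ℝ) ≤ (N : ℝ) ^ θ := hTle a ha d hd
      _ ≤ (N : ℝ) ^ ((I : ℝ) * e1) :=
        Real.rpow_le_rpow_of_exponent_le hN1 (by linarith)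
  have hratio : ∀ i, (D (i + 1) : ℝ) ≤ (N : ℝ) ^ ε₀ * D i := by
    intro i
    have h1 : (D (i + 1) : ℝ) ≤ (N : ℝ) ^ (((i + 1 : ℕ) : ℝ) * e1) := by
      rw [hD]; exact Nat.floor_le (by positivity)
    have h2 : (N : ℝ) ^ ((i : ℝ) * e1) ≤ 2 * D i := by
      have h3 : (N : ℝ) ^ ((i : ℝ) * e1) < (D i : ℝ) + 1 := by
        rw [hD]; exact Nat.lt_floor_add_one _
      have h4 : (1 : ℝ) ≤ D i := by exact_mod_cast hD1 i
      linarith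
    calc (D (i + 1) : ℝ) ≤ (N : ℝ) ^ (((i + 1 : ℕ) : ℝ) * e1) := h1
      _ = (N : ℝ) ^ e1 * (N : ℝ) ^ ((i : ℝ) * e1) := by
          rw [← Real.rpow_add hN0]; congr 1; push_cast; ring
      _ ≤ (N : ℝ) ^ e1 * (2 * D i) := mul_le_mul_of_nonneg_left h2 (by positivity)
      _ = ((N : ℝ) ^ e1 * 2) * D i := by ring
      _ ≤ ((N : ℝ) ^ e1 * (N : ℝ) ^ e1) * D i := by
          apply mul_le_mul_of_nonneg_right _ (Nat.cast_nonneg _)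
          exact mul_le_mul_of_nonneg_left hN2' (by positivity)
      _ = (N : ℝ) ^ ε₀ * D i := by
          rw [← Real.rpow_add hN0]; congr 2; rw [he1def]; ring
  obtain ⟨Tb, hTb⟩ : ∃ Tb : ℕ → ℤ → Finset ℕ, ∀ i a,
      Tb i a = (T a).filter (fun d => D i < d ∧ d ≤ D (i + 1)) := ⟨_, fun _ _ => rfl⟩
  obtain ⟨F, hF⟩ : ∃ F : ℤ → ℕ → ℝ, ∀ a d,
      F a d = |BX.Df (fun p => f p * xx (P1 N B ε₁) (p - a)) N a d| := ⟨_, fun _ _ => rfl⟩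
  have hF0 : ∀ a d, 0 ≤ F a d := fun a d => by rw [hF]; exact abs_nonneg _
  have hblock : ∀ i, ∑ a ∈ 𝒜, (∑ d ∈ Tb i a, F a d) ^ 2 ≤
      (N / Real.log N) ^ 2 * (C * VV (P1 N B ε₁) +
        Real.exp (-((A₀ + 1) / ε₁)) * VV (P1 N B ε₁) ^ 2 * 𝒜.card) := by
    intro i
    simp only [hF]
    apply hbk N (D i) (min (D (i + 1)) ⌊(N : ℝ) ^ θ⌋₊) hNa
    · calc ((min (D (i + 1)) ⌊(N : ℝ) ^ θ⌋₊ : ℕ) : ℝ) ≤ (⌊(N : ℝ) ^ θ⌋₊ : ℝ) := by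
            exact_mod_cast min_le_right _ _
        _ ≤ (N : ℝ) ^ θ := Nat.floor_le (by positivity)
    · exact hD1 i
    · calc ((min (D (i + 1)) ⌊(N : ℝ) ^ θ⌋₊ : ℕ) : ℝ) ≤ (D (i + 1) : ℝ) := by
            exact_mod_cast min_le_left _ _
        _ ≤ _ := hratio i
    · exact hf
    · exact hA
    · intro a ha d hd
      rw [hTb, Finset.mem_filter] at hd
      have h5 := hT a ha d hd.1
      exact ⟨h5.1, hd.2.1, le_min hd.2.2 (Nat.le_floor (hTle a ha d hd.1)), h5.2.2.1, h5.2.2.2⟩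
  have hsplit : ∀ a ∈ 𝒜, ∑ d ∈ T a, F a d ≤
      ∑ i ∈ Finset.range I, ∑ d ∈ Tb i a, F a d := by
    intro a ha
    have hrw : ∑ i ∈ Finset.range I, ∑ d ∈ Tb i a, F a d =
        ∑ d ∈ T a, ∑ i ∈ Finset.range I,
          (if D i < d ∧ d ≤ D (i + 1) then F a d else 0) := by
      rw [Finset.sum_comm]
      apply Finset.sum_congr rfl
      intro i _
      rw [hTb, Finset.sum_filter]
    rw [hrw]
    apply Finset.sum_le_sum
    intro d hd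
    obtain ⟨i, hi, h1, h2⟩ := block D I d (by
      rw [hD0]; exact (hT a ha d hd).1) (hDI a ha d hd)
    have h3 := Finset.single_le_sum (f := fun i =>
      (if D i < d ∧ d ≤ D (i + 1) then F a d else 0))
      (fun j _ => by
        show 0 ≤ (if D j < d ∧ d ≤ D (j + 1) then F a d else 0)
        split_ifs
        · exact hF0 _ _
        · exact le_refl _) hi
    have h4 : (if D i < d ∧ d ≤ D (i + 1) then F a d else 0) = F a d :=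
      if_pos ⟨h1, h2⟩
    calc F a d = (if D i < d ∧ d ≤ D (i + 1) then F a d else 0) := h4.symm
      _ ≤ _ := h3
  refine combine (k := (I : ℝ) ^ 2) (C := C) (sq_nonneg _) (by positivity)
    (Nat.cast_nonneg 𝒜.card) h0 h1c ?_
  simp only [← hF]
  calc ∑ a ∈ 𝒜, (∑ d ∈ T a, F a d) ^ 2
      ≤ ∑ a ∈ 𝒜, (∑ i ∈ Finset.range I, ∑ d ∈ Tb i a, F a d) ^ 2 :=
        Finset.sum_le_sum (fun a ha => pow_le_pow_left₀
          (Finset.sum_nonneg (fun _ _ => hF0 _ _)) (hsplit a ha) 2)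
    _ ≤ ∑ a ∈ 𝒜, (I : ℝ) * ∑ i ∈ Finset.range I, (∑ d ∈ Tb i a, F a d) ^ 2 := by
        apply Finset.sum_le_sum
        intro a _
        have := sq_sum_le_card_mul_sum_sq (s := Finset.range I)
          (f := fun i => ∑ d ∈ Tb i a, F a d)
        simpa using this
    _ = (I : ℝ) * ∑ i ∈ Finset.range I, ∑ a ∈ 𝒜, (∑ d ∈ Tb i a, F a d) ^ 2 := by
        rw [← Finset.mul_sum, Finset.sum_comm]
    _ ≤ (I : ℝ) * ∑ i ∈ Finset.range I, ((N / Real.log N) ^ 2 * (C * VV (P1 N B ε₁) +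
        Real.exp (-((A₀ + 1) / ε₁)) * VV (P1 N B ε₁) ^ 2 * 𝒜.card)) := by
        apply mul_le_mul_of_nonneg_left _ (Nat.cast_nonneg _)
        exact Finset.sum_le_sum (fun i _ => hblock i)
    _ = (I : ℝ) ^ 2 * ((N / Real.log N) ^ 2 * (C * VV (P1 N B ε₁) +
        Real.exp (-((A₀ + 1) / ε₁)) * VV (P1 N B ε₁) ^ 2 * 𝒜.card)) := by
        rw [Finset.sum_const, Finset.card_range, nsmul_eq_mul]; ring

theorem FIX (hBXB : St_BXB) : St_FIX := by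
  classical
  intro θ δ A₀ hθ0 hθ hδ hA₀
  obtain ⟨κ, hκdef⟩ : ∃ κ : ℝ, κ = min (δ / 14) ((5 / 9 - θ) / 2) := ⟨_, rfl⟩
  have hκ0 : 0 < κ := by rw [hκdef]; exact lt_min (by linarith) (by linarith)
  have hκ1 : κ ≤ δ / 14 := by rw [hκdef]; exact min_le_left _ _
  have hκ2 : κ ≤ (5 / 9 - θ) / 2 := by rw [hκdef]; exact min_le_right _ _
  have key : ∀ j : ℕ, (51 / 100 : ℝ) + j * κ < 5 / 9 → QQ (fun ε₁ N d =>
      1 < d ∧ (d : ℝ) ≤ (N : ℝ) ^ ((51 / 100 : ℝ) + j * κ) ∧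
        (∀ p : ℕ, p.Prime → p ∣ d → ε₁ ≤ tt N p) ∧
        ((d : ℝ) ≤ (N : ℝ) ^ (51 / 100 : ℝ) ∨ FacO N δ d)) := by
    intro j
    induction j with
    | zero =>
      intro _
      refine QQ_mono _ _ ?_ (QQ_fac hBXB (51 / 100) 1 (by norm_num) (by norm_num) one_pos)
      intro ε₁ N d hN h
      refine ⟨h.1, ?_, h.2.2.1, Or.inl le_rfl⟩
      have h1 := h.2.1
      simpa using h1
    | succ j ih =>
      intro hj
      have hκj : (51 / 100 : ℝ) + j * κ < 5 / 9 := by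
        have : (51 / 100 : ℝ) + j * κ ≤ 51 / 100 + ((j + 1 : ℕ) : ℝ) * κ := by
          push_cast; nlinarith
        linarith
      have hj0 : (0 : ℝ) ≤ j * κ := by positivity
      have hw := QQ_fac hBXB (51 / 100 + ((j + 1 : ℕ) : ℝ) * κ) (δ / 2)
        (by push_cast; nlinarith) hj (by linarith)
      refine QQ_mono _ _ ?_ (QQ_or _ _ (ih hκj) hw)
      intro ε₁ N d hN h
      have hN1 : (1 : ℝ) ≤ N := by exact_mod_cast (by omega : 1 ≤ N)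
      rcases le_or_gt (d : ℝ) ((N : ℝ) ^ ((51 / 100 : ℝ) + j * κ)) with hd | hd
      · exact Or.inl ⟨h.1, hd, h.2.2.1, h.2.2.2⟩
      · refine Or.inr ⟨h.1, h.2.1, h.2.2.1, Or.inr ?_⟩
        have hFO : FacO N δ d := by
          rcases h.2.2.2 with h3 | h3
          · exfalso
            have : (N : ℝ) ^ (51 / 100 : ℝ) ≤ (N : ℝ) ^ ((51 / 100 : ℝ) + j * κ) :=
              Real.rpow_le_rpow_of_exponent_le hN1 (by linarith)
            linarith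
          · exact h3
        apply Pool.Agent.W583.DC.facD_of_facO N (by omega) _ δ κ hκ0 hκ1 d _ hFO
        have e : (51 / 100 : ℝ) + ((j + 1 : ℕ) : ℝ) * κ - κ = 51 / 100 + j * κ := by
          push_cast; ring
        rw [e]
        exact hd
  obtain ⟨j, hjdef⟩ : ∃ j : ℕ, j = ⌈(θ - 51 / 100) / κ⌉₊ := ⟨_, rfl⟩
  have hj1 : θ ≤ 51 / 100 + j * κ := by
    have h : (θ - 51 / 100) / κ ≤ (j : ℝ) := by rw [hjdef]; exact Nat.le_ceil _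
    rw [div_le_iff₀ hκ0] at h
    linarith
  have hj2 : (51 / 100 : ℝ) + j * κ < 5 / 9 := by
    rcases le_or_gt θ (51 / 100) with h | h
    · have : j = 0 := by
        rw [hjdef, Nat.ceil_eq_zero]
        apply div_nonpos_of_nonpos_of_nonneg (by linarith) hκ0.le
      rw [this]; norm_num
    · have h2 : (j : ℝ) < (θ - 51 / 100) / κ + 1 := by
        rw [hjdef]
        exact Nat.ceil_lt_add_one (div_nonneg (by linarith) hκ0.le)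
      have h3 : (j : ℝ) * κ < ((θ - 51 / 100) / κ + 1) * κ := mul_lt_mul_of_pos_right h2 hκ0
      have h4 : ((θ - 51 / 100) / κ + 1) * κ = θ - 51 / 100 + κ := by
        field_simp
      rw [h4] at h3
      linarith
  obtain ⟨εs, hεs, H⟩ := key j hj2 A₀ hA₀
  refine ⟨εs, hεs, fun ε₁ h0 h1 => ?_⟩
  obtain ⟨C, hC, H⟩ := H ε₁ h0 h1
  refine ⟨C, hC, fun B hB => ?_⟩
  obtain ⟨N₀, H⟩ := H B hB
  refine ⟨max N₀ 2, fun N hN f hf 𝒜 hA => H N ((le_max_left _ _).trans hN) f hf 𝒜 hA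
    (fun _ => facS N θ ε₁ δ) ?_⟩
  intro a _ d hd
  have hN2 : 2 ≤ N := (le_max_right _ _).trans hN
  have hN1 : (1 : ℝ) ≤ N := by exact_mod_cast (by omega : 1 ≤ N)
  rw [facS, Finset.mem_filter, Finset.mem_Icc] at hd
  refine ⟨hd.2.1, ?_, hd.2.2.1, hd.2.2.2⟩
  calc (d : ℝ) ≤ (⌊(N : ℝ) ^ θ⌋₊ : ℝ) := by exact_mod_cast hd.1.2
    _ ≤ (N : ℝ) ^ θ := Nat.floor_le (by positivity)
    _ ≤ _ := Real.rpow_le_rpow_of_exponent_le hN1 hj1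

end Pool.Agent.W826.PL
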